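import Pool.Agent.H286Z.Ten.Main

set_option autoImplicit false

/-! Over every field, tensor restriction is not countably universal (it has no infinite strictly
descending chain). -/

open Pool.Agent.H286Z.Ten

universe u

theorem Pool.Agent.Results.MP_176834_co.ANotUniversal.result (F : Type u) [Field F] :
    ¬ CountablyUniversal F :=
  not_universal
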