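import Pool.Agent.H286Z.Ten.Main

set_option autoImplicit false

/-! Over every field, condition (b) fails for tensor restriction. -/

open Pool.Agent.H286Z.Ten

universe u

theorem Pool.Agent.Results.MP_176834_co.ConditionBFails.result (F : Type u) [Field F] :
    ¬ CondB F :=
  not_condB
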